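import Mathlib

set_option autoImplicit false

namespace Pool.Agent.H.MP_93b8e4_co

open Finset

def G (d : ℕ → ℕ → ℤ) (a p b q : ℕ) : Prop :=
  a < b ∧ p < q ∧ ∀ i j, a < i → i ≤ b → p < j → j ≤ q → 0 < d i j

def del (d : ℕ → ℕ → ℤ) (b q : ℕ) : ℤ := d (b + 1) (q + 1) - d b (q + 1) - d (b + 1) q + d b q

open Classical in
lemma diag (N : ℕ) (d : ℕ → ℕ → ℤ) (h0 : ∀ i j, 0 ≤ d i j) (h1 : ∀ j, d N j = 0)
    (h2 : ∀ i, d i N = 0) (a p : ℕ) (ha : a < N) (hp : p < N) :
    ∃ β : ℤ, 0 ≤ β ∧ ∑ b ∈ range N, ∑ q ∈ range N, (if G d a p b q then del d b q else 0) =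
      d (a + 1) (p + 1) + β ∧
      ∀ b j c, a < b → b < N → p < c → c < j → G d a p b (j - 1) → d (a + 1) j = 0 →
        d (b + 1) c = 0 → d (b + 1) j ≤ β := by
  have ex : ∀ b, ∃ j, p < j ∧ ∃ i, a < i ∧ i ≤ max b (a + 1) ∧ d i j = 0 :=
    fun b => ⟨N, hp, a + 1, by omega, by omega, h2 _⟩
  let e : ℕ → ℕ := fun b => Nat.find (ex b)
  have e1 : ∀ b, p < e b := fun b => (Nat.find_spec (ex b)).1
  have e2 : ∀ b, ∃ i, a < i ∧ i ≤ max b (a + 1) ∧ d i (e b) = 0 := fun b => (Nat.find_spec (ex b)).2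
  have e3 : ∀ b i j, p < j → a < i → i ≤ max b (a + 1) → d i j = 0 → e b ≤ j :=
    fun b i j x y z w => Nat.find_min' (ex b) ⟨x, i, y, z, w⟩
  have e4 : ∀ b q, a < b → (G d a p b q ↔ p < q ∧ q < e b) := by
    intro b q hb
    constructor
    · rintro ⟨-, g1, g2⟩
      refine ⟨g1, ?_⟩
      by_contra hc
      obtain ⟨i, i1, i2, i3⟩ := e2 b
      have := g2 i (e b) i1 (by omega) (e1 b) (by omega)
      omega
    · rintro ⟨g1, g2⟩
      refine ⟨hb, g1, fun i j i1 i2 j1 j2 => lt_of_le_of_ne (h0 i j) fun hc => ?_⟩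
      have := e3 b i j j1 i1 (by omega) hc.symm
      omega
  have e5 : ∀ b, e b ≤ N := fun b => e3 b (a + 1) N hp (by omega) (by omega) (h2 _)
  let term : ℕ → ℤ := fun b => d (b + 1) (e b) - d (b + 1) (e (b + 1))
  have t1 : ∀ b, a < b → e (b + 1) = e b ∨ d (b + 1) (e (b + 1)) = 0 := by
    intro b hb
    obtain ⟨i, i1, i2, i3⟩ := e2 (b + 1)
    obtain ⟨k, k1, k2, k3⟩ := e2 b
    by_cases hi : i = b + 1
    · exact Or.inr (hi ▸ i3)
    · have := e3 b i _ (e1 _) i1 (by omega) i3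
      have := e3 (b + 1) k _ (e1 _) k1 (by omega) k3
      exact Or.inl (by omega)
  have t2 : ∀ b, a < b → 0 ≤ term b := by
    intro b hb
    have := h0 (b + 1) (e b)
    rcases t1 b hb with h | h <;> simp only [term, h] <;> omega
  have row : ∀ b, a < b → ∑ q ∈ range N, (if G d a p b q then del d b q else 0) =
      term b + ((d (b + 1) (e (b + 1)) - d (b + 1) (p + 1)) - (d b (e b) - d b (p + 1))) := by
    intro b hb
    have : (range N).filter (fun q => G d a p b q) = Ico (p + 1) (e b) := by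
      ext q
      have := e5 b
      simp only [mem_filter, mem_range, e4 b q hb, mem_Ico]
      omega
    rw [← sum_filter, this]
    have := Finset.sum_Ico_sub (fun q => d (b + 1) q - d b q) (e1 b)
    simp only [term, del]
    rw [← sub_eq_zero] at this ⊢
    rw [← this]
    have : ∑ q ∈ Ico (p + 1) (e b), (d (b + 1) (q + 1) - d b (q + 1) - d (b + 1) q + d b q) =
        ∑ q ∈ Ico (p + 1) (e b), (d (b + 1) (q + 1) - d b (q + 1) - (d (b + 1) q - d b q)) :=
      sum_congr rfl fun q _ => by ring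
    rw [this]
    ring
  refine ⟨∑ b ∈ Ico (a + 1) N, term b, sum_nonneg fun b hb => t2 b (mem_Ico.1 hb).1, ?_, ?_⟩
  · rw [← sum_range_add_sum_Ico _ (show a + 1 ≤ N from ha), sum_eq_zero (s := range (a + 1)),
      sum_congr rfl fun b hb => row b (mem_Ico.1 hb).1, sum_add_distrib,
      Finset.sum_Ico_sub (fun b => d b (e b) - d b (p + 1)) (show a + 1 ≤ N from ha)]
    · obtain ⟨i, i1, i2, i3⟩ := e2 (a + 1)
      have : i = a + 1 := by omega
      subst this
      rw [h1, h1, i3]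
      ring
    · intro b hb
      refine sum_eq_zero fun q _ => if_neg fun h => ?_
      have := h.1
      have := mem_range.1 hb
      omega
  · intro b j c b1 b2 c1 c2 hG z1 z2
    have a1 := (e4 b _ b1).1 hG
    have a2 := e3 b (a + 1) j (by omega) (by omega) (by omega) z1
    have a3 := e3 (b + 1) (b + 1) c c1 (by omega) (by omega) z2
    have a4 : e b = j := by omega
    have a5 := (t1 b b1).resolve_left (by omega)
    refine le_trans ?_ (single_le_sum (f := term) (s := Ico (a + 1) N)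
      (fun b hb => t2 b (mem_Ico.1 hb).1) (mem_Ico.2 ⟨b1, b2⟩))
    simp only [term, a5, a4]
    omega

open Classical in
lemma diag' (N : ℕ) (d : ℕ → ℕ → ℤ) (h0 : ∀ i j, 0 ≤ d i j) (h1 : ∀ j, d 0 j = 0)
    (h2 : ∀ i, d i 0 = 0) (b q : ℕ) (hb : b < N) (hq : q < N) :
    d b q ≤ ∑ a ∈ range N, ∑ p ∈ range N, (if G d a p b q then del d a p else 0) := by
  obtain ⟨β, c1, c2, -⟩ := diag N (fun i j => d (N - i) (N - j)) (fun i j => h0 _ _)
    (fun j => by simp [h1]) (fun j => by simp [h2]) (N - 1 - b) (N - 1 - q) (by omega) (by omega)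
  rw [show N - (N - 1 - b + 1) = b by omega, show N - (N - 1 - q + 1) = q by omega,
    ← sum_range_reflect] at c2
  refine le_trans (by omega) (c2.symm.le.trans (le_of_eq (sum_congr rfl fun a ha => ?_)))
  rw [← sum_range_reflect]
  refine sum_congr rfl fun p hp => ?_
  rw [mem_range] at ha hp
  refine if_congr ⟨?_, ?_⟩ ?_ rfl
  · rintro ⟨g1, g2, g3⟩
    refine ⟨by omega, by omega, fun i j i1 i2 j1 j2 => ?_⟩
    have := g3 (N - i) (N - j) (by omega) (by omega) (by omega) (by omega)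
    simp only at this
    rwa [show N - (N - i) = i by omega, show N - (N - j) = j by omega] at this
  · rintro ⟨g1, g2, g3⟩
    exact ⟨by omega, by omega, fun i j i1 i2 j1 j2 =>
      g3 _ _ (by omega) (by omega) (by omega) (by omega)⟩
  · simp only [del]
    rw [show N - (N - 1 - a + 1) = a by omega, show N - (N - 1 - p + 1) = p by omega,
      show N - (N - 1 - a) = a + 1 by omega, show N - (N - 1 - p) = p + 1 by omega]
    ring

open Equiv

variable {N : ℕ}

def r (u : Perm (Fin N)) (i j : ℕ) : ℤ := ∑ p : Fin N, if (p : ℕ) < j ∧ (u p : ℕ) < i then 1 else 0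

def L (u : Perm (Fin N)) : ℤ := ∑ p : Fin N, ∑ q : Fin N, if p < q ∧ u q < u p then 1 else 0

def dd (u w : Perm (Fin N)) (i j : ℕ) : ℤ := r u i j - r w i j

lemma r_row (u : Perm (Fin N)) (i : Fin N) (j : ℕ) :
    r u (i + 1) j = r u i j + if (u⁻¹ i : ℕ) < j then 1 else 0 := by
  have : (if (u⁻¹ i : ℕ) < j then (1 : ℤ) else 0) =
      ∑ p : Fin N, if p = u⁻¹ i then (if (p : ℕ) < j then 1 else 0) else 0 := by simp
  rw [this, r, r, ← sum_add_distrib]
  refine sum_congr rfl fun p _ => ?_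
  have : p = u⁻¹ i ↔ (u p : ℕ) = i := by rw [Perm.eq_inv_iff_eq, Fin.ext_iff]
  simp only [this]
  split_ifs <;> omega

lemma dd_N1 (u w : Perm (Fin N)) (j : ℕ) : dd u w N j = 0 := by simp [dd, r]

lemma dd_N2 (u w : Perm (Fin N)) (i : ℕ) : dd u w i N = 0 := by
  simp only [dd, r, Fin.is_lt, true_and]
  rw [Equiv.sum_comp u fun a => if (a : ℕ) < i then (1 : ℤ) else 0,
    Equiv.sum_comp w fun a => if (a : ℕ) < i then (1 : ℤ) else 0, sub_self]

lemma del_dd (u w : Perm (Fin N)) (b q : Fin N) :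
    del (dd u w) b q = (if u q = b then 1 else 0) - if w q = b then 1 else 0 := by
  have e : ∀ v : Perm (Fin N), v q = b ↔ (v⁻¹ b : ℕ) = q := fun v => by
    rw [← Fin.ext_iff, Perm.inv_eq_iff_eq, eq_comm]
  simp only [del, dd, r_row, e]
  split_ifs <;> omega

open Classical in
lemma sum_del (u w : Perm (Fin N)) (P : ℕ → ℕ → Prop) :
    ∑ b ∈ range N, ∑ q ∈ range N, (if P b q then del (dd u w) b q else 0) =
      ∑ q : Fin N, (if P (u q) q then 1 else 0) - ∑ q : Fin N, if P (w q) q then 1 else 0 := by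
  rw [sum_comm, sum_range, ← sum_sub_distrib]
  refine sum_congr rfl fun q _ => ?_
  rw [sum_range]
  have e : ∀ v : Perm (Fin N), (if P (v q) q then (1 : ℤ) else 0) =
      ∑ b : Fin N, if v q = b then (if P b q then 1 else 0) else 0 := fun v => by simp
  rw [e, e, ← sum_sub_distrib]
  refine sum_congr rfl fun b _ => ?_
  rw [del_dd]
  split_ifs <;> rfl

lemma len_formula (u w : Perm (Fin N)) :
    L w - L u = ∑ p : Fin N, dd u w (u p + 1) (p + 1) + ∑ q : Fin N, dd u w (w q) q := by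
  have c : ∑ p : Fin N, ∑ q : Fin N, (if (u q : ℕ) < w p then (1 : ℤ) else 0) =
      ∑ p : Fin N, ∑ q : Fin N, if (q : ℕ) < p then (1 : ℤ) else 0 := by
    rw [← Equiv.sum_comp w fun p => ∑ q : Fin N, if (q : ℕ) < p then (1 : ℤ) else 0]
    exact sum_congr rfl fun p _ => Equiv.sum_comp u fun q => if (q : ℕ) < w p then (1 : ℤ) else 0
  have c2 : ∑ p : Fin N, ∑ q : Fin N, (if (q : ℕ) ≤ p then (1 : ℤ) else 0) =
      ∑ p : Fin N, ∑ q : Fin N, (if (p : ℕ) ≤ q then (1 : ℤ) else 0) := sum_comm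
  have c3 : ∀ v : Perm (Fin N), L v =
      ∑ p : Fin N, ∑ q : Fin N, if q < p ∧ v p < v q then (1 : ℤ) else 0 := fun v => sum_comm
  have c4 : ∑ p : Fin N, r w (u p + 1) (p + 1) = ∑ p : Fin N, ∑ q : Fin N,
      if (p : ℕ) < q + 1 ∧ (w p : ℕ) < u q + 1 then (1 : ℤ) else 0 := sum_comm
  have a1 : ∀ (v : Perm (Fin N)) p q, (v p : ℕ) = v q ↔ (p : ℕ) = q := fun v p q => by
    rw [← Fin.ext_iff, ← Fin.ext_iff, v.injective.eq_iff]
  have hA : L w + ∑ p : Fin N, r w (w p) p =
      ∑ p : Fin N, ∑ q : Fin N, if (q : ℕ) < p then (1 : ℤ) else 0 := by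
    rw [c3, ← sum_add_distrib]
    refine sum_congr rfl fun p _ => ?_
    rw [r, ← sum_add_distrib]
    refine sum_congr rfl fun q _ => ?_
    have := a1 w p q
    simp only [Fin.lt_def]
    split_ifs <;> omega
  have hB : L u + ∑ p : Fin N, r u (u p + 1) (p + 1) =
      ∑ p : Fin N, ∑ q : Fin N, if (q : ℕ) ≤ p then (1 : ℤ) else 0 := by
    rw [c3, ← sum_add_distrib]
    refine sum_congr rfl fun p _ => ?_
    rw [r, ← sum_add_distrib]
    refine sum_congr rfl fun q _ => ?_
    have := a1 u p q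
    simp only [Fin.lt_def]
    split_ifs <;> omega
  have hC : ∑ p : Fin N, r w (u p + 1) (p + 1) + ∑ p : Fin N, ∑ q : Fin N,
      (if (u q : ℕ) < w p then (1 : ℤ) else 0) = ∑ p : Fin N, r u (w p) p +
      ∑ p : Fin N, ∑ q : Fin N, (if (p : ℕ) ≤ q then (1 : ℤ) else 0) := by
    rw [c4, ← sum_add_distrib, ← sum_add_distrib]
    refine sum_congr rfl fun p _ => ?_
    rw [r, ← sum_add_distrib, ← sum_add_distrib]
    refine sum_congr rfl fun q _ => ?_
    split_ifs <;> omega
  simp only [dd, sum_sub_distrib]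
  linarith

lemma dd_swap (u : Perm (Fin N)) {p q : Fin N} (h : p < q) (h' : u p < u q) (i j : ℕ) :
    dd u (swap (u p) (u q) * u) i j =
      if (u p : ℕ) < i ∧ i ≤ u q ∧ (p : ℕ) < j ∧ j ≤ q then 1 else 0 := by
  rw [dd, r, r, ← sum_sub_distrib, sum_eq_add_of_mem p q (mem_univ _) (mem_univ _) h.ne]
  · simp only [Perm.mul_apply, swap_apply_left, swap_apply_right]
    rw [Fin.lt_def] at h h'
    split_ifs <;> omega
  · intro c _ hc
    rw [Perm.mul_apply, swap_apply_of_ne_of_ne (u.injective.ne hc.1) (u.injective.ne hc.2), sub_self]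

lemma L_swap (u : Perm (Fin N)) {p q : Fin N} (h : p < q) (h' : u p < u q) :
    L u < L (swap (u p) (u q) * u) := by
  rw [← sub_pos, len_formula]
  simp only [dd_swap u h h']
  refine add_pos_of_pos_of_nonneg (sum_pos' (fun _ _ => by split_ifs <;> omega)
    ⟨p, mem_univ _, ?_⟩) (sum_nonneg fun _ _ => by split_ifs <;> omega)
  rw [Fin.lt_def] at h h'
  rw [if_pos (by omega)]
  omega

open Classical in
lemma count (u w : Perm (Fin N)) (h0 : ∀ i j, 0 ≤ dd u w i j) :
    ∃ β : Fin N → ℤ, (∀ p, 0 ≤ β p) ∧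
      L w - L u + ∑ p, β p + ∑ q : Fin N, ∑ p : Fin N,
        (if G (dd u w) (w p) p (w q) q then (1 : ℤ) else 0) ≤
      ∑ p : Fin N, ∑ q : Fin N, (if G (dd u w) (u p) p (u q) q then (1 : ℤ) else 0) ∧
      ∀ (p : Fin N) (b j c : ℕ), u p < b → b < N → p < c → c < j → G (dd u w) (u p) p b (j - 1) →
        dd u w (u p + 1) j = 0 → dd u w (b + 1) c = 0 → dd u w (b + 1) j ≤ β p := by
  choose β b1 b2 b3 using fun p : Fin N =>
    diag N (dd u w) h0 (dd_N1 u w) (dd_N2 u w) (u p) p (u p).2 p.2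
  refine ⟨β, b1, ?_, b3⟩
  have c := fun q : Fin N => diag' N (dd u w) h0 (fun j => by simp [dd, r])
    (fun j => by simp [dd, r]) (w q) q (w q).2 q.2
  simp only [sum_del] at b2
  simp only [sum_del u w fun a p => G (dd u w) a p _ _] at c
  have c1 := sum_le_sum fun q (_ : q ∈ univ) => c q
  have c2 := sum_congr rfl fun p (_ : p ∈ univ) => b2 p
  rw [sum_sub_distrib] at c1 c2
  rw [sum_add_distrib] at c2
  rw [sum_comm] at c1
  rw [len_formula]
  linarith

lemma eq_of_dd {u w : Perm (Fin N)} (h : ∀ i j, dd u w i j = 0) : u = w := by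
  ext q
  have := del_dd u w (u q) q
  simp only [del, h, if_true] at this
  by_contra hc
  rw [if_neg fun e => hc (congrArg _ e.symm)] at this
  omega

lemma exists_G {u w : Perm (Fin N)} (h0 : ∀ i j, 0 ≤ dd u w i j) (h : u ≠ w) :
    ∃ p q : Fin N, G (dd u w) (u p) p (u q) q := by
  classical
  obtain ⟨β, b1, b2, -⟩ := count u w h0
  have hL : 0 < L w - L u := by
    have ex : ∃ s, ∃ i j, i + j = s ∧ dd u w i j ≠ 0 := by
      by_contra hc
      push Not at hc
      exact h (eq_of_dd fun i j => hc _ i j rfl)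
    obtain ⟨i, j, e1, e2⟩ := Nat.find_spec ex
    have mn : ∀ i' j', i' + j' < i + j → dd u w i' j' = 0 := by
      intro i' j' hh
      by_contra hc
      exact Nat.find_min ex (e1 ▸ hh) ⟨i', j', rfl, hc⟩
    rcases i with _ | i
    · simp [dd, r] at e2
    rcases j with _ | j
    · simp [dd, r] at e2
    have big : ∀ (v : Perm (Fin N)) a b, N ≤ a → r v (a + 1) b = r v a b := fun v a b hh =>
      sum_congr rfl fun p _ => if_congr (by have := (v p).2; omega) rfl rfl
    have big' : ∀ (v : Perm (Fin N)) a b, N ≤ b → r v a (b + 1) = r v a b := fun v a b hh =>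
      sum_congr rfl fun p _ => if_congr (by have := p.2; omega) rfl rfl
    have hi : i < N := by
      by_contra hc
      have := mn i (j + 1) (by omega)
      simp only [dd, big _ i _ (by omega)] at e2 this
      exact e2 this
    have hj : j < N := by
      by_contra hc
      have := mn (i + 1) j (by omega)
      simp only [dd, big' _ _ j (by omega)] at e2 this
      exact e2 this
    have e3 := del_dd u w ⟨i, hi⟩ ⟨j, hj⟩
    simp only [del, mn i (j + 1) (by omega), mn (i + 1) j (by omega), mn i j (by omega)] at e3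
    have e4 := h0 (i + 1) (j + 1)
    have e5 : u ⟨j, hj⟩ = ⟨i, hi⟩ := by
      by_contra hc
      rw [if_neg hc] at e3
      split_ifs at e3 <;> omega
    rw [len_formula]
    refine add_pos_of_pos_of_nonneg (sum_pos' (fun _ _ => h0 _ _) ⟨⟨j, hj⟩, mem_univ _, ?_⟩)
      (sum_nonneg fun _ _ => h0 _ _)
    rw [e5]
    exact lt_of_le_of_ne e4 e2.symm
  by_contra hc
  push Not at hc
  simp only [hc, if_false, sum_const_zero] at b2
  have := sum_nonneg fun p (_ : p ∈ univ) => b1 p
  have : 0 ≤ ∑ q : Fin N, ∑ p : Fin N, (if G (dd u w) (w p) p (w q) q then (1 : ℤ) else 0) :=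
    sum_nonneg fun _ _ => sum_nonneg fun _ _ => by split_ifs <;> omega
  omega

end Pool.Agent.H.MP_93b8e4_co
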